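import Mathlib
import Pool.Agent.H75.JacDomain

set_option autoImplicit false

namespace Pool.Agent.Results.MP_2e9a62_al.RadicalDomain

open Pool.Agent.H75.JacDomain PowerSeries

universe u

theorem geom_neg {T : Type u} [Ring T] (y : T⟦X⟧) : geom (-y) * y * X + geom (-y) - 1 = 0 := by
  have h4 := geom_mul (-y)
  rw [mul_neg, sub_neg_eq_add, mul_add, mul_one] at h4
  rw [mul_assoc, (commute_X y).eq, add_comm, h4, sub_self]

/-- Over every countable field there is a finitely generated algebra that is a domain and has a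
nonzero Jacobson radical. -/
theorem result (k : Type u) [Field k] [Countable k] :
    ∃ (R : Type u) (_ : Ring R) (_ : Algebra k R),
      IsDomain R ∧ Algebra.FiniteType k R ∧ Ring.jacobson R ≠ ⊥ := by
  obtain ⟨B, h1, h2⟩ := main (k := k)
  have hX : (X : E0 k) ∈ (ev B).range := ⟨FreeAlgebra.ι k 3, by simp [ev]⟩
  refine ⟨(ev B).range, inferInstance, inferInstance, NoZeroDivisors.to_isDomain _, ?_, ?_⟩
  · exact Algebra.FiniteType.of_surjective (ev B).rangeRestrict (ev B).rangeRestrict_surjective
  · intro h
    have h3 : (⟨X, hX⟩ : (ev B).range) ∈ Ideal.jacobson (⊥ : Ideal (ev B).range) := by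
      rw [Ideal.mem_jacobson_iff]
      intro y
      refine ⟨⟨geom (-y.1), h2 _ (neg_mem y.2)⟩, ?_⟩
      rw [Ideal.mem_bot]
      apply Subtype.ext
      exact geom_neg y.1
    rw [Ideal.jacobson_bot, h, Ideal.mem_bot] at h3
    exact X_ne_zero (congrArg Subtype.val h3)

end Pool.Agent.Results.MP_2e9a62_al.RadicalDomain
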